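import Pool.Agent.E8helper36.CF.Stm

/-!
# Project CF, IND: the distance to `matA`
-/

set_option autoImplicit false

namespace Pool.Agent.E8helper41.CF

open Finset
open Pool.Agent.E8helper36.CF

variable {n : ℕ}

lemma sh_val {s : ℕ} (hs : s ≤ 2 * n) (i : Fin (2 * n)) :
    (sh n s i : ℕ) = if (i : ℕ) + s < 2 * n then (i : ℕ) + s else (i : ℕ) + s - 2 * n := by
  have hi := i.2
  unfold sh
  split_ifs with h
  · exact Nat.mod_eq_of_lt h
  · show ((i : ℕ) + s) % (2 * n) = _
    rw [Nat.mod_eq_sub_mod (not_lt.1 h)]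
    exact Nat.mod_eq_of_lt (by omega)

lemma sh_sh {s t : ℕ} (h : s + t = 2 * n) (i : Fin (2 * n)) : sh n t (sh n s i) = i := by
  have hi := i.2
  apply Fin.ext
  rw [sh_val (by omega), sh_val (by omega)]
  split_ifs <;> omega

lemma sh_inj {s : ℕ} : Function.Injective (sh n s) := by
  intro i j h
  have h1 : ((i : ℕ) + s) % (2 * n) = ((j : ℕ) + s) % (2 * n) := congrArg Fin.val h
  have h2 : (i : ℕ) ≡ j [MOD 2 * n] := Nat.ModEq.add_right_cancel' s h1
  have h3 : (i : ℕ) % (2 * n) = (j : ℕ) % (2 * n) := h2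
  rw [Nat.mod_eq_of_lt i.2, Nat.mod_eq_of_lt j.2] at h3
  exact Fin.ext h3

lemma sh_surj {s : ℕ} : Function.Surjective (sh n s) := Finite.injective_iff_surjective.1 sh_inj

lemma mext {M M' : Matching n} (h : ∀ i, M.m i = M'.m i) : M = M' := by
  obtain ⟨m, _, _, _⟩ := M
  obtain ⟨m', _, _, _⟩ := M'
  have : m = m' := funext h
  subst this
  rfl

lemma rot_uniq {s : ℕ} {M N N' : Matching n} (h : RotBy s M N) (h' : RotBy s M N') : N = N' := by
  apply mext
  intro i
  obtain ⟨j, rfl⟩ := sh_surj (s := s) i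
  rw [h j, h' j]

lemma rot_inv {s t : ℕ} (hst : s + t = 2 * n) {M N : Matching n} (h : RotBy s M N) :
    RotBy t N M := by
  intro i
  obtain ⟨j, rfl⟩ := sh_surj (s := s) i
  rw [h j, sh_sh hst, sh_sh hst]

lemma rot_A {t : ℕ} (ht : t ≤ 2 * n) (he : t % 2 = 0) : RotBy t (matA n) (matA n) := by
  intro i
  have hi := i.2
  apply Fin.ext
  rw [sh_val ht]
  show (if (sh n t i : ℕ) % 2 = 0 then (sh n t i : ℕ) + 1 else (sh n t i : ℕ) - 1) = _
  rw [sh_val ht]
  have h1 : (((matA n).m i : Fin (2 * n)) : ℕ) = if (i : ℕ) % 2 = 0 then (i : ℕ) + 1 else i - 1 := rfl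
  rw [h1]
  split_ifs <;> omega

lemma cflip_cf (hn : 0 < n) {M N : Matching n} (h : CFlip M N) : CF M N := by
  obtain ⟨a, b, c, d, h1, h2, h3, h4, h5⟩ := h
  obtain ⟨k1, k2, k3, k4⟩ := arcs hn (a := a) (b := b) (c := c) (d := d) h1 h2 h3 d.2 h4
  exact ⟨a, b, c, d, h1, h2, h3, k1, k2, k3, k4, h5⟩

lemma cf_cflip (hC : S_CEN) {M N : Matching n} (h : CF M N) : CFlip M N := by
  obtain ⟨a, b, c, d, h1, h2, h3, k1, k2, k3, k4, h5⟩ := h
  exact ⟨a, b, c, d, h1, h2, h3, hC n a b c d h1 h2 h3 d.2 k1 k2 k3 k4, h5⟩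

lemma edist_CF (hC : S_CEN) {M N : Matching n} (h : CF M N) : (H n).edist M N ≤ 1 := by
  by_cases he : M = N
  · subst he
    rw [SimpleGraph.edist_self]
    exact zero_le_one
  · have hadj : (H n).Adj M N := ⟨he, cf_cflip hC h⟩
    exact (SimpleGraph.edist_eq_one_iff_adj.2 hadj).le

lemma edist_walk (hC : S_CEN) (hR : S_ROT) (hn : Odd n) (s : ℕ) {M N : Matching n}
    (w : (H n).Walk M N) : ∀ M' N' : Matching n, RotBy s M M' → RotBy s N N' →
      (H n).edist M' N' ≤ (w.length : ℕ∞) := by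
  induction w with
  | nil =>
    intro M' N' h1 h2
    rw [rot_uniq h1 h2, SimpleGraph.edist_self]
    exact zero_le
  | @cons u v x h w ih =>
    intro M' N' h1 h2
    obtain ⟨V', hV⟩ := (hR n s hn).1 v
    have h3 := ih V' N' hV h2
    have h4 : CF M' V' := (hR n s hn).2.1 u M' v V' h1 hV (cflip_cf hn.pos h.2)
    have h5 := edist_CF hC h4
    calc (H n).edist M' N' ≤ (H n).edist M' V' + (H n).edist V' N' := SimpleGraph.edist_triangle
      _ ≤ 1 + (w.length : ℕ∞) := add_le_add h5 h3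
      _ = ((SimpleGraph.Walk.cons h w).length : ℕ∞) := by
          rw [SimpleGraph.Walk.length_cons]
          push_cast
          rw [add_comm]

lemma edist_rot (hC : S_CEN) (hR : S_ROT) (hn : Odd n) {s k : ℕ} {M N M' N' : Matching n}
    (h1 : RotBy s M M') (h2 : RotBy s N N') (h : (H n).edist M N ≤ (k : ℕ∞)) :
    (H n).edist M' N' ≤ (k : ℕ∞) := by
  have hne : (H n).edist M N ≠ ⊤ := ne_top_of_le_ne_top (ENat.natCast_ne_top k) h
  obtain ⟨w, hw⟩ := SimpleGraph.exists_walk_of_edist_ne_top hne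
  calc (H n).edist M' N' ≤ (w.length : ℕ∞) := edist_walk hC hR hn s w M' N' h1 h2
    _ = (H n).edist M N := hw
    _ ≤ k := h

lemma wt_le (M : Matching n) (x : Fin (2 * n)) : wt M x ≤ 7 * n := by
  have hx := x.2
  have hm := (M.m x).2
  unfold wt fwd
  simp only [Fin.lt_def]
  split_ifs <;> omega

lemma pot_le (M : Matching n) : Pot M ≤ 14 * n ^ 2 := by
  unfold Pot
  calc ∑ x, wt M x ≤ ∑ _x : Fin (2 * n), (7 * n : ℤ) := Finset.sum_le_sum fun x _ => wt_le M x
    _ = 14 * n ^ 2 := by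
        rw [Finset.sum_const, Finset.card_univ, Fintype.card_fin, nsmul_eq_mul]
        push_cast
        ring

/-- the rotation that moves an even end of the diameter to `0` -/
lemma rot_dm (hR : S_ROT) (hn : Odd n) {M : Matching n} (h : Dm M) :
    ∃ (s t : ℕ) (M1 : Matching n), s + t = 2 * n ∧ t % 2 = 0 ∧ RotBy s M M1 ∧ Pot M1 = Pot M ∧
      ∀ i : Fin (2 * n), (i : ℕ) = 0 → (M1.m i : ℕ) = n := by
  obtain ⟨i, hi⟩ := h
  have hi2 := i.2
  have hmi := (M.m i).2
  obtain ⟨k, hk⟩ := hn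
  have hn' : Odd n := ⟨k, hk⟩
  -- the even end
  obtain ⟨e, he1, he2⟩ : ∃ e : Fin (2 * n), (e : ℕ) % 2 = 0 ∧
      ((M.m e : ℕ) = e + n ∨ (M.m e : ℕ) + n = e) := by
    rcases Nat.mod_two_eq_zero_or_one (i : ℕ) with h | h
    · exact ⟨i, h, Or.inl hi⟩
    · refine ⟨M.m i, by omega, Or.inr ?_⟩
      rw [M.inv]
      omega
  have he3 := e.2
  obtain ⟨M1, hM1⟩ := (hR n (2 * n - e) hn').1 M
  refine ⟨2 * n - e, e, M1, by omega, he1, hM1, ?_, ?_⟩
  · rw [(hR n (2 * n - e) hn').2.2 M M1 hM1, Even.neg_one_pow (Nat.even_iff.2 (by omega)), one_mul]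
  · intro z hz
    have h1 : sh n (2 * n - e) e = z := by
      apply Fin.ext
      rw [sh_val (by omega), hz]
      split_ifs <;> omega
    rw [← h1, hM1 e, sh_val (by omega)]
    have hme := (M.m e).2
    rcases he2 with h2 | h2
    · split_ifs <;> omega
    · split_ifs <;> omega

theorem t_IND (hC : S_CEN) (hR : S_ROT) (hCLO : S_CLO) (hKST : S_KST) (hDST : S_DST) : S_IND := by
  intro n hn h3
  have key : ∀ (B : ℕ) (M : Matching n), Dm M → (14 * (n : ℤ) ^ 2 - Pot M).toNat ≤ B →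
      ∃ k : ℕ, (H n).edist M (matA n) ≤ (k : ℕ∞) ∧ (2 * n * k : ℤ) + Pot M = n * (3 * n - 7) := by
    intro B
    induction B using Nat.strong_induction_on with
    | _ B ih =>
      intro M hM hB
      obtain ⟨s, t, M1, hst, ht, hrot, hpot, hz⟩ := rot_dm hR hn hM
      have hinv : RotBy t M1 M := rot_inv hst hrot
      have hA : RotBy t (matA n) (matA n) := rot_A (by omega) ht
      obtain ⟨N1, hc1, hnrm, hp1, huv⟩ := hDST n hn h3 M1 hz
      have hd1 := edist_CF hC hc1
      by_cases hNA : N1 = matA n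
      · refine ⟨1, ?_, ?_⟩
        · rw [hNA] at hd1
          exact edist_rot hC hR hn hinv hA (by exact_mod_cast hd1)
        · rw [hNA, pot_A h3, hpot] at hp1
          push_cast
          linarith
      · obtain ⟨u, v, hu, hv, huv'⟩ := huv
        obtain ⟨x, y, hx, hy, hxy, hyn⟩ := hCLO n hn h3 N1 hnrm
          ⟨u, v, hu, hv, Or.inr huv'⟩ hNA
        obtain ⟨M2, M3, hc2, hc3, hdm, hp3⟩ := hKST n hn h3 N1 hnrm x y hx hy hxy hyn
        have hP : Pot M3 = Pot M + 6 * n := by rw [hp3, hp1, hpot]; ring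
        have hle := pot_le M3
        have hn0 : 0 < n := hn.pos
        obtain ⟨k, hk1, hk2⟩ := ih ((14 * (n : ℤ) ^ 2 - Pot M3).toNat) (by omega) M3 hdm le_rfl
        refine ⟨k + 3, ?_, ?_⟩
        · apply edist_rot hC hR hn hinv hA
          have e2 := edist_CF hC hc2
          have e3 := edist_CF hC hc3
          calc (H n).edist M1 (matA n) ≤ (H n).edist M1 N1 + (H n).edist N1 (matA n) :=
                SimpleGraph.edist_triangle
            _ ≤ (H n).edist M1 N1 + ((H n).edist N1 M2 + (H n).edist M2 (matA n)) :=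
                add_le_add le_rfl SimpleGraph.edist_triangle
            _ ≤ (H n).edist M1 N1 + ((H n).edist N1 M2 + ((H n).edist M2 M3 +
                (H n).edist M3 (matA n))) :=
                add_le_add le_rfl (add_le_add le_rfl SimpleGraph.edist_triangle)
            _ ≤ 1 + (1 + (1 + (k : ℕ∞))) :=
                add_le_add hd1 (add_le_add e2 (add_le_add e3 hk1))
            _ = ((k + 3 : ℕ) : ℕ∞) := by
                push_cast
                ring
        · rw [hP] at hk2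
          push_cast
          linarith
  intro M hM
  exact key _ M hM le_rfl

end Pool.Agent.E8helper41.CF
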